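import Mathlib
import Pool.Agent.H46.VT.Defs

/-!
# Module INV of board vt_modules: the property `InfQ` is invariant
-/

namespace Pool.Agent.H55.VT.INV

open _root_.VT

variable (φ : ℕ ≃ ℕ)

theorem ex_image (hφ : ∀ S : Set ℕ, CE S ↔ CE (φ '' S)) (T : Set ℕ) (hT : CE T) :
    ∃ T0, CE T0 ∧ T = φ '' T0 := by
  refine ⟨φ.symm '' T, ?_, ?_⟩
  · rw [hφ, Equiv.image_symm_image]
    exact hT
  · rw [Equiv.image_symm_image]

theorem wm_image (hφ : ∀ S : Set ℕ, CE S ↔ CE (φ '' S)) {U C A : Set ℕ} (h : WM U C A) :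
    WM (φ '' U) (φ '' C) (φ '' A) := by
  intro T hT hUC
  obtain ⟨T0, hT0, rfl⟩ := ex_image φ hφ T hT
  rw [← Set.image_sdiff φ.injective, Set.image_subset_image_iff φ.injective] at hUC
  obtain ⟨Z, hZ, hZA, hUA⟩ := h T0 hT0 hUC
  refine ⟨φ '' Z, (hφ Z).1 hZ, ?_, ?_⟩
  · rw [← Set.image_inter φ.injective, hZA, Set.image_empty]
  · rw [← Set.image_sdiff φ.injective, ← Set.image_union, Set.image_subset_image_iff φ.injective]
    exact hUA

theorem pairQ_image (hφ : ∀ S : Set ℕ, CE S ↔ CE (φ '' S)) {U A : Set ℕ} {Vs : Set (Set ℕ)}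
    (h : PairQ U A Vs) : PairQ (φ '' U) (φ '' A) ((fun V => φ '' V) '' Vs) := by
  obtain ⟨C, hC, hAC, hCU, hWM, hB⟩ := h
  have hinj := φ.injective
  refine ⟨φ '' C, (hφ C).1 hC, Set.image_mono hAC, Set.image_mono hCU,
    wm_image φ hφ hWM, ?_⟩
  intro B hBce hBC
  obtain ⟨B0, hB0, rfl⟩ := ex_image φ hφ B hBce
  rw [Set.image_subset_image_iff hinj] at hBC
  obtain ⟨D, hD, hDC, hS⟩ := hB B0 hB0 hBC
  refine ⟨φ '' D, (hφ D).1 hD, Set.image_mono hDC, ?_⟩
  intro S S' hSce hS'ce hun hint heq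
  obtain ⟨S0, hS0, rfl⟩ := ex_image φ hφ S hSce
  obtain ⟨S1, hS1, rfl⟩ := ex_image φ hφ S' hS'ce
  rw [← Set.image_union] at hun
  rw [← Set.image_inter hinj] at hint
  rw [← Set.image_sdiff hinj, ← Set.image_inter hinj, ← Set.image_inter hinj] at heq
  obtain ⟨V, hV, T, hT, hUT, hfin⟩ := hS S0 S1 hS0 hS1 (hinj.image_injective hun)
    (by
      apply hinj.image_injective
      rw [hint, Set.image_empty]) (hinj.image_injective heq)
  refine ⟨φ '' V, ⟨V, hV, rfl⟩, φ '' T, (hφ T).1 hT, ?_, ?_⟩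
  · rw [← Set.image_sdiff hinj, Set.image_subset_image_iff hinj]
    exact hUT
  · rw [← Set.image_inter hinj, ← Set.image_inter hinj, ← Set.image_inter hinj,
      ← Set.image_inter hinj, ← Set.image_inter hinj, ← Set.image_inter hinj, hfin]

theorem pf_INV : TARGET_INV := by
  intro φ hφ A hA
  obtain ⟨R, hR, hpart, hP, hcol⟩ := hA
  have hinj := φ.injective
  have hsurj := φ.surjective
  refine ⟨fun n => φ '' R n, ?_, ?_, ?_, ?_⟩
  · intro n
    refine ⟨(hφ _).1 (hR n).1, ?_⟩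
    rw [← Set.image_compl_eq φ.bijective]
    exact (hφ _).1 (hR n).2
  · intro x
    obtain ⟨y, rfl⟩ := hsurj x
    obtain ⟨n, hn, hu⟩ := hpart y
    refine ⟨n, ⟨y, hn, rfl⟩, ?_⟩
    intro m hm
    obtain ⟨z, hz, hzy⟩ := hm
    have := hinj hzy
    subst this
    exact hu m hz
  · have h := pairQ_image φ hφ hP
    rw [Set.image_univ_of_surjective hsurj] at h
    convert h using 1
    ext V
    constructor
    · rintro ⟨n, rfl⟩
      refine ⟨{x | ∀ m ≤ n, x ∉ R m}, ⟨n, rfl⟩, ?_⟩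
      ext x
      obtain ⟨y, rfl⟩ := hsurj x
      constructor
      · rintro ⟨z, hz, hzy⟩
        have := hinj hzy
        subst this
        intro m hm hmem
        obtain ⟨w, hw, hwz⟩ := hmem
        have := hinj hwz
        subst this
        exact hz m hm hw
      · intro hx
        exact ⟨y, fun m hm hy => hx m hm ⟨y, hy, rfl⟩, rfl⟩
    · rintro ⟨V0, ⟨n, rfl⟩, rfl⟩
      refine ⟨n, ?_⟩
      ext x
      obtain ⟨y, rfl⟩ := hsurj x
      constructor
      · rintro ⟨z, hz, hzy⟩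
        have := hinj hzy
        subst this
        intro m hm hmem
        obtain ⟨w, hw, hwz⟩ := hmem
        have := hinj hwz
        subst this
        exact hz m hm hw
      · intro hx
        exact ⟨y, fun m hm hy => hx m hm ⟨y, hy, rfl⟩, rfl⟩
  · intro m
    obtain ⟨k, Uc, h0, hk, hce, hpair⟩ := hcol m
    refine ⟨k, fun i => φ '' Uc i, ?_, ?_, ?_, ?_⟩
    · show φ '' Uc 0 = φ '' R m
      rw [h0]
    · show φ '' Uc k = φ '' A ∩ φ '' R m
      rw [hk, Set.image_inter hinj]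
    · intro i hi
      exact (hφ _).1 (hce i hi)
    · intro i hi
      have h := pairQ_image φ hφ (hpair i hi)
      rw [Set.image_singleton, Set.image_univ_of_surjective hsurj] at h
      exact h

end Pool.Agent.H55.VT.INV
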